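import Pool.Agent.W_MP_e1f0eb_co.Conc

namespace Pool.Agent.Results.MP_e1f0eb_co.ConcurrenceBound

open Pool.Agent.W_MP_e1f0eb_co

/-- For every finite `P` with `n` points, `3 H(P) ≤ 2 N(P) + 2 n ^ 2 + n`, where `H(P)` is the
number of triples `(p, q, r)` of points of `P` such that the vertical line through `p`, the
horizontal line through `q` and the line of slope one through `r` are concurrent. -/
theorem result (P : Finset (ℝ × ℝ)) : ((3 * conc P : ℕ) : ℕ∞) ≤
    2 * numOrd (P : Set (ℝ × ℝ)) + ((2 * P.card ^ 2 + P.card : ℕ) : ℕ∞) :=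
  conc_bound P

end Pool.Agent.Results.MP_e1f0eb_co.ConcurrenceBound
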