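import Pool.Agent.W_MP_e1f0eb_co.Conc2

namespace Pool.Agent.Results.MP_e1f0eb_co.ProgressionExact

open Pool.Agent.W_MP_e1f0eb_co

/-- Let `P` have `n` points whose first coordinates, second coordinates and differences `x - y`
each fill an `n`-term progression with the same common difference `h > 0`.  Then
`(n - 1) (n - 3) ≤ 8 N(P)`, and for `n = 3 ^ j` there is such a set with equality. -/
theorem result :
    (∀ (n : ℕ) (h : ℝ) (P : Finset (ℝ × ℝ)), 0 < h → FillsAP n h P →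
      (((n - 1) * (n - 3) : ℕ) : ℕ∞) ≤ 8 * numOrd (P : Set (ℝ × ℝ))) ∧
    (∀ j : ℕ, ∃ P : Finset (ℝ × ℝ), FillsAP (3 ^ j) 1 P ∧
      8 * numOrd (P : Set (ℝ × ℝ)) = (((3 ^ j - 1) * (3 ^ j - 3) : ℕ) : ℕ∞)) :=
  ⟨fun _ _ _ hh hP => AP_lower hh hP, AP_exact⟩

end Pool.Agent.Results.MP_e1f0eb_co.ProgressionExact
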