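import Pool.Agent.W_MP_e1f0eb_co.Degen

namespace Pool.Agent.Results.MP_e1f0eb_co.QuadraticLower

open Pool.Agent.W_MP_e1f0eb_co

/-- Any `n` points of the tropical plane determine at least `n ^ 2 / 1000` ordinary tropical lines,
for `n ≥ 140`. So the minimum `m(n)` grows quadratically. -/
theorem result (n : ℕ) (hn : 140 ≤ n) : (n : ℕ∞) ^ 2 ≤ 1000 * mTrop n :=
  mTrop_lower n hn

end Pool.Agent.Results.MP_e1f0eb_co.QuadraticLower
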