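import Pool.Agent.W_MP_e1f0eb_co.Upper2

namespace Pool.Agent.Results.MP_e1f0eb_co.UpperEighth

open Pool.Agent.W_MP_e1f0eb_co

/-- For every `n` there are `n` points of the tropical plane determining at most
`n ^ 2 / 8 + 3 n √n` ordinary tropical lines. -/
theorem result (n : ℕ) : ∃ N : ℕ, mTrop n ≤ N ∧ (N : ℝ) ≤ n ^ 2 / 8 + 3 * n * √n :=
  upper_all n

end Pool.Agent.Results.MP_e1f0eb_co.UpperEighth
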